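import Pool.Agent.RN.Final

/-!
# Every weakly reversible mass-action system is permanent

Answer to Q1 of MP_210c79_an. The compact set only depends on the compatibility class.
-/

namespace Pool.Agent.Results.MP_210c79_an.Permanence

open Filter Set

/-- Every weakly reversible system (arbitrary real exponents, constant positive rates) is permanent:
for every positive `x₀` there is a compact subset `M` of its stoichiometric compatibility class such
that from every point `y₀` of the class starts a solution `x` on `[0, ∞)`, which extends every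
solution on an interval `[0, b)` with this initial value, and `x t ∈ M` for all large `t`. -/
theorem result :
    ∀ (n : ℕ) (E : Finset (RN.Edge n)), RN.WeaklyReversible E →
      ∀ k : RN.Edge n → ℝ, (∀ e ∈ E, 0 < k e) →
      ∀ x₀ : Fin n → ℝ, (∀ i, 0 < x₀ i) →
        ∃ M : Set (Fin n → ℝ), IsCompact M ∧ M ⊆ RN.compat E x₀ ∧
          ∀ y₀ ∈ RN.compat E x₀, ∃ x : ℝ → Fin n → ℝ,
            RN.IsSolution E k (Ici 0) x ∧ x 0 = y₀ ∧ (∀ᶠ t in atTop, x t ∈ M) ∧
            ∀ (b : ℝ) (y : ℝ → Fin n → ℝ), RN.IsSolution E k (Ico 0 b) y → y 0 = y₀ →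
              ∀ t ∈ Ico 0 b, y t = x t :=
  fun _ _ hE _ hk _ hx₀ => RN.permanent hE.endotactic hk hx₀

end Pool.Agent.Results.MP_210c79_an.Permanence
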